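import Pool.Agent.Y184.SP.Base

set_option autoImplicit false

/-!
# Bounded subharmonic functions on the plane are constant
-/

open Set Topology Filter InnerProductSpace
open scoped ContDiff Laplacian

namespace Run7.h772.SP

open Pool.Agent.Y184.SP

lemma second_nonpos {f : ℂ → ℝ} {x : ℂ} (hf : ContDiffAt ℝ 2 f x) (hmax : IsLocalMax f x)
    (v : ℂ) : fderiv ℝ (fderiv ℝ f) x v v ≤ 0 := by
  set φ : ℝ → ℝ := fun τ => f (x + τ • v) with hφ
  have hline : Continuous (fun τ : ℝ => x + τ • v) := by fun_prop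
  have hline0 : Tendsto (fun τ : ℝ => x + τ • v) (𝓝 0) (𝓝 x) := by
    have := hline.tendsto 0
    simpa using this
  have hlineD : ∀ τ : ℝ, HasDerivAt (fun τ : ℝ => x + τ • v) v τ := by
    intro τ
    have := ((hasDerivAt_id τ).smul_const v).const_add x
    simpa using this
  have hdiff : ∀ᶠ y in 𝓝 x, DifferentiableAt ℝ f y := by
    filter_upwards [hf.eventually (by simp)] with y hy
    exact hy.differentiableAt (by norm_num)
  have hd1 : ∀ᶠ τ : ℝ in 𝓝 0, deriv φ τ = fderiv ℝ f (x + τ • v) v := by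
    filter_upwards [hline0.eventually hdiff] with τ hτ
    exact (hτ.hasFDerivAt.comp_hasDerivAt τ (hlineD τ)).deriv
  have hdd : DifferentiableAt ℝ (fderiv ℝ f) x := by
    have h1 : ContDiffAt ℝ 1 (fderiv ℝ f) x := hf.fderiv_right (by norm_num)
    exact h1.differentiableAt (by norm_num)
  have hd2 : HasDerivAt (fun τ : ℝ => fderiv ℝ f (x + τ • v) v) (fderiv ℝ (fderiv ℝ f) x v v) 0 := by
    have h0 : x + (0:ℝ) • v = x := by simp
    have h1 : HasFDerivAt (fderiv ℝ f) (fderiv ℝ (fderiv ℝ f) x) (x + (0:ℝ) • v) := by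
      rw [h0]; exact hdd.hasFDerivAt
    have h2 := h1.comp_hasDerivAt (0:ℝ) (hlineD 0)
    have h3 := h2.clm_apply (hasDerivAt_const (0:ℝ) v)
    simpa using h3
  have hd3 : deriv (deriv φ) 0 = fderiv ℝ (fderiv ℝ f) x v v := by
    have : deriv φ =ᶠ[𝓝 0] fun τ : ℝ => fderiv ℝ f (x + τ • v) v := hd1
    rw [this.deriv_eq]
    exact hd2.deriv
  have hφmax : IsLocalMax φ 0 := by
    have h1 : ∀ᶠ y in 𝓝 x, f y ≤ f x := hmax
    have h2 := hline0.eventually h1
    filter_upwards [h2] with τ hτ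
    simpa [hφ] using hτ
  by_contra hcon
  push Not at hcon
  rw [← hd3] at hcon
  have hcont : ContinuousAt φ 0 := by
    have h0 : x + (0:ℝ) • v = x := by simp
    have h1 : ContinuousAt f (x + (0:ℝ) • v) := by rw [h0]; exact hf.continuousAt
    exact ContinuousAt.comp (f := fun τ : ℝ => x + τ • v) (g := f) h1 hline.continuousAt
  have hmin := isLocalMin_of_deriv_deriv_pos hcon hφmax.deriv_eq_zero hcont
  have heq : φ =ᶠ[𝓝 0] fun _ => φ 0 := by
    filter_upwards [hφmax, hmin] with τ h1 h2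
    exact le_antisymm h1 h2
  have h1 : deriv φ =ᶠ[𝓝 0] deriv (fun _ => φ 0) := heq.deriv
  have h2 : deriv (deriv φ) 0 = 0 := by
    rw [h1.deriv_eq]
    simp
  linarith

lemma lap_max {f : ℂ → ℝ} {x : ℂ} (hf : ContDiffAt ℝ 2 f x) (hmax : IsLocalMax f x) :
    Laplacian.laplacian f x ≤ 0 := by
  rw [laplacian_eq_iteratedFDeriv_complexPlane f]
  simp only [iteratedFDeriv_two_apply]
  have h1 := second_nonpos hf hmax 1
  have h2 := second_nonpos hf hmax Complex.I
  simpa using add_nonpos h1 h2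

lemma lap_sq (p w : ℂ) : Laplacian.laplacian (fun w : ℂ => ‖w - p‖ ^ 2) w = 4 := by
  have h1 : fderiv ℝ (fun w : ℂ => ‖w - p‖ ^ 2) = fun w => (2 : ℝ) • innerSL ℝ (w - p) := by
    funext w
    have h := (hasStrictFDerivAt_norm_sq (w - p)).hasFDerivAt.comp w ((hasFDerivAt_id w).sub_const p)
    have h' := h.fderiv
    refine h'.trans ?_
    ext t
    simp [two_smul]
  rw [laplacian_eq_iteratedFDeriv_complexPlane]
  simp only [iteratedFDeriv_two_apply, h1]
  have h2 : HasFDerivAt (fun w : ℂ => (2 : ℝ) • innerSL ℝ (w - p)) ((2 : ℝ) • (innerSL ℝ : ℂ →L[ℝ] ℂ →L[ℝ] ℝ)) w := by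
    have h : HasFDerivAt (fun w : ℂ => innerSL ℝ (w - p)) (innerSL ℝ : ℂ →L[ℝ] ℂ →L[ℝ] ℝ) w :=
      (innerSL ℝ : ℂ →L[ℝ] ℂ →L[ℝ] ℝ).hasFDerivAt.comp w ((hasFDerivAt_id w).sub_const p)
    exact h.const_smul (2 : ℝ)
  rw [h2.fderiv]
  have e1 : (innerSL ℝ (1 : ℂ)) (1 : ℂ) = (1 : ℝ) := by
    rw [innerSL_apply_apply, real_inner_self_eq_norm_sq]; simp
  have e2 : (innerSL ℝ (Complex.I : ℂ)) (Complex.I : ℂ) = (1 : ℝ) := by
    rw [innerSL_apply_apply, real_inner_self_eq_norm_sq]; simp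
  simp [e1, e2]
  norm_num

lemma liou_aux {v : ℂ → ℝ} (hv : ContDiff ℝ 2 v) {K : ℝ} (hK : ∀ x, |v x| ≤ K)
    (hs : ∀ x, 0 ≤ Laplacian.laplacian v x) (p z : ℂ) {r M : ℝ} (hr : 0 < r) (hz : r ≤ ‖z - p‖)
    (hM : ∀ w : ℂ, ‖w - p‖ = r → v w ≤ M) : v z ≤ M := by
  by_contra hcon
  push Not at hcon
  obtain ⟨d, hd⟩ : ∃ d, d = v z - M := ⟨_, rfl⟩
  have hd0 : 0 < d := by rw [hd]; linarith
  set t := ‖z - p‖ with ht
  have ht0 : 0 < t := lt_of_lt_of_le hr hz
  have hlt : Real.log r ≤ Real.log t := Real.log_le_log hr hz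
  -- the parameters
  obtain ⟨ε, hε, hε1⟩ : ∃ ε : ℝ, 0 < ε ∧ ε * (Real.log t - Real.log r) ≤ d / 4 := by
    refine ⟨d / 4 / (Real.log t - Real.log r + 1), by positivity, ?_⟩
    have h1 : 0 < Real.log t - Real.log r + 1 := by linarith
    rw [div_mul_eq_mul_div, div_le_iff₀ h1]
    nlinarith
  have hK0 : 0 ≤ K := (abs_nonneg _).trans (hK 0)
  obtain ⟨R, hR, hR1⟩ : ∃ R : ℝ, t < R ∧ K + |M| ≤ ε * (Real.log R - Real.log r) := by
    refine ⟨max (t + 1) (Real.exp ((K + |M|) / ε + Real.log r)), lt_max_of_lt_left (by linarith), ?_⟩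
    have h1 : (K + |M|) / ε + Real.log r ≤
        Real.log (max (t + 1) (Real.exp ((K + |M|) / ε + Real.log r))) := by
      rw [Real.le_log_iff_exp_le (lt_max_of_lt_right (Real.exp_pos _))]
      exact le_max_right _ _
    have h2 : (K + |M|) / ε ≤
        Real.log (max (t + 1) (Real.exp ((K + |M|) / ε + Real.log r))) - Real.log r := by linarith
    rw [div_le_iff₀ hε] at h2
    linarith
  have hR0 : 0 < R := ht0.trans hR
  obtain ⟨δ, hδ, hδ1⟩ : ∃ δ : ℝ, 0 < δ ∧ δ * R ^ 2 ≤ d / 4 :=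
    ⟨d / 4 / R ^ 2, by positivity, by rw [div_mul_cancel₀ _ (by positivity)]⟩
  set u : ℂ → ℝ := fun w => v w + ((-ε) * Real.log ‖w - p‖ + δ * ‖w - p‖ ^ 2) with hu
  -- compact annulus
  set A : Set ℂ := {w | r ≤ ‖w - p‖ ∧ ‖w - p‖ ≤ R} with hA
  have hnc : Continuous fun w : ℂ => ‖w - p‖ := (continuous_id.sub continuous_const).norm
  have hAc : IsCompact A := by
    refine Metric.isCompact_of_isClosed_isBounded ?_ ?_
    · exact (isClosed_le continuous_const hnc).inter (isClosed_le hnc continuous_const)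
    · refine (Metric.isBounded_closedBall (x := p) (r := R)).subset fun w hw => ?_
      rw [Metric.mem_closedBall, dist_eq_norm]
      exact hw.2
  have huc : ContinuousOn u A := by
    refine hv.continuous.continuousOn.add ((continuousOn_const.mul ?_).add
      (continuousOn_const.mul (hnc.continuousOn.pow 2)))
    exact hnc.continuousOn.log fun w hw => (lt_of_lt_of_le hr hw.1).ne'
  have hzA : z ∈ A := ⟨hz, hR.le⟩
  obtain ⟨w, hwA, hwm⟩ := hAc.exists_isMaxOn ⟨z, hzA⟩ huc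
  have hzw : u z ≤ u w := hwm hzA
  have hz1 : M + (-ε) * Real.log r + 3 * d / 4 ≤ u z := by
    simp only [hu, ← ht]
    have : 0 ≤ δ * t ^ 2 := by positivity
    linarith [hd]
  -- the maximum is in the interior
  have hw1 : r < ‖w - p‖ := by
    refine lt_of_le_of_ne hwA.1 fun h => ?_
    have h1 := hM w h.symm
    have h2 : u w = v w + ((-ε) * Real.log r + δ * r ^ 2) := by simp only [hu, ← h]
    have h3 : δ * r ^ 2 ≤ δ * R ^ 2 :=
      mul_le_mul_of_nonneg_left (pow_le_pow_left₀ hr.le (hz.trans hR.le) 2) hδ.le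
    linarith
  have hw2 : ‖w - p‖ < R := by
    refine lt_of_le_of_ne hwA.2 fun h => ?_
    have h2 : u w = v w + ((-ε) * Real.log R + δ * R ^ 2) := by simp only [hu, h]
    have h3 := (abs_le.mp (hK w)).2
    have h4 := neg_abs_le M
    linarith
  have hw0 : 0 < ‖w - p‖ := hr.trans hw1
  have hloc : IsLocalMax u w := by
    have h1 : A ∈ 𝓝 w := by
      have h2 : {w : ℂ | r < ‖w - p‖ ∧ ‖w - p‖ < R} ∈ 𝓝 w :=
        ((isOpen_lt continuous_const hnc).inter (isOpen_lt hnc continuous_const)).mem_nhds ⟨hw1, hw2⟩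
      exact mem_of_superset h2 fun y hy => ⟨hy.1.le, hy.2.le⟩
    filter_upwards [h1] with y hy
    exact hwm hy
  have hane : w - p ≠ 0 := norm_pos_iff.mp hw0
  have hlog : HarmonicAt (fun w : ℂ => Real.log ‖w - p‖) w :=
    AnalyticAt.harmonicAt_log_norm (f := fun w : ℂ => w - p) (analyticAt_id.sub analyticAt_const) hane
  have c1 : ContDiffAt ℝ 2 v w := hv.contDiffAt
  have c2 : ContDiffAt ℝ 2 (fun w : ℂ => (-ε) * Real.log ‖w - p‖) w := contDiffAt_const.mul hlog.1
  have c3 : ContDiffAt ℝ 2 (fun w : ℂ => δ * ‖w - p‖ ^ 2) w :=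
    contDiffAt_const.mul ((contDiff_norm_sq ℝ).contDiffAt.comp w (contDiffAt_id.sub contDiffAt_const))
  have hcu : ContDiffAt ℝ 2 u w := c1.add (c2.add c3)
  have hL := lap_max hcu hloc
  have e1 : Laplacian.laplacian u w = Laplacian.laplacian v w +
      ((-ε) * Laplacian.laplacian (fun w : ℂ => Real.log ‖w - p‖) w +
        δ * Laplacian.laplacian (fun w : ℂ => ‖w - p‖ ^ 2) w) := by
    have h1 : Laplacian.laplacian u w = Laplacian.laplacian v w +
        Laplacian.laplacian (fun w : ℂ => (-ε) * Real.log ‖w - p‖ + δ * ‖w - p‖ ^ 2) w :=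
      ContDiffAt.laplacian_add c1 (c2.add c3)
    have h2 : Laplacian.laplacian (fun w : ℂ => (-ε) * Real.log ‖w - p‖ + δ * ‖w - p‖ ^ 2) w =
        Laplacian.laplacian (fun w : ℂ => (-ε) * Real.log ‖w - p‖) w +
        Laplacian.laplacian (fun w : ℂ => δ * ‖w - p‖ ^ 2) w :=
      ContDiffAt.laplacian_add c2 c3
    have h3 : Laplacian.laplacian (fun w : ℂ => (-ε) * Real.log ‖w - p‖) w =
        (-ε) * Laplacian.laplacian (fun w : ℂ => Real.log ‖w - p‖) w :=
      laplacian_smul (-ε) hlog.1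
    have h4 : Laplacian.laplacian (fun w : ℂ => δ * ‖w - p‖ ^ 2) w =
        δ * Laplacian.laplacian (fun w : ℂ => ‖w - p‖ ^ 2) w :=
      laplacian_smul δ ((contDiff_norm_sq ℝ).contDiffAt.comp w (contDiffAt_id.sub contDiffAt_const))
    rw [h1, h2, h3, h4]
  have e2 : Laplacian.laplacian (fun w : ℂ => Real.log ‖w - p‖) w = 0 := hlog.2.self_of_nhds
  rw [e1, e2, lap_sq] at hL
  have := hs w
  linarith

/-- bounded subharmonic functions on the plane are constant -/
theorem liou_const {v : ℂ → ℝ} (hv : ContDiff ℝ 2 v) (hb : ∃ K, ∀ x, |v x| ≤ K)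
    (hs : ∀ x, 0 ≤ Laplacian.laplacian v x) (p z : ℂ) : v z = v p := by
  have key : ∀ p z : ℂ, v z ≤ v p := by
    intro p z
    rcases eq_or_ne z p with rfl | hne
    · exact le_rfl
    have hzp : 0 < ‖z - p‖ := norm_pos_iff.mpr (sub_ne_zero.mpr hne)
    obtain ⟨K, hK⟩ := hb
    refine le_of_forall_pos_le_add fun η hη => ?_
    obtain ⟨r₀, hr₀, hball⟩ := Metric.continuousAt_iff.mp (hv.continuous.continuousAt (x := p)) η hη
    set r := min (r₀ / 2) ‖z - p‖ with hrdef
    have hr : 0 < r := lt_min (by linarith) hzp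
    refine liou_aux hv hK hs p z hr (min_le_right _ _) fun w hw => ?_
    have h1 : dist w p < r₀ := by
      rw [dist_eq_norm, hw]
      have := min_le_left (r₀ / 2) ‖z - p‖
      rw [← hrdef] at this
      linarith
    have h2 := hball h1
    rw [Real.dist_eq] at h2
    linarith [(abs_lt.mp h2).2]
  exact le_antisymm (key p z) (key z p)

theorem t_Liou : StLiou := by
  intro v hv hb hs x
  have h : v = fun _ => v 0 := funext fun z => liou_const hv hb hs 0 z
  rw [h]
  simp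

end Run7.h772.SP
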