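import Pool.Agent.Run7.h772.SP.Liou

set_option autoImplicit false

/-!
# There is no elliptic function with one simple pole
-/

open Set Topology Filter InnerProductSpace
open scoped ContDiff Laplacian

namespace Run7.h772.SP

open Pool.Agent.Y184.SP

lemma Lam_iff {x : ℂ} : x ∈ Lam ↔ x.re ∈ range ((↑) : ℤ → ℝ) ∧ x.im ∈ range ((↑) : ℤ → ℝ) := by
  constructor
  · rintro ⟨m, n, rfl⟩
    exact ⟨⟨m, by simp⟩, ⟨n, by simp⟩⟩
  · rintro ⟨⟨m, hm⟩, ⟨n, hn⟩⟩
    exact ⟨m, n, by apply Complex.ext <;> simp [hm, hn]⟩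

lemma Lam_closed : IsClosed Lam := by
  have h1 : IsClosed (range ((↑) : ℤ → ℝ)) := Int.isClosedEmbedding_coe_real.isClosed_range
  have : Lam = (Complex.re ⁻¹' range ((↑) : ℤ → ℝ)) ∩ (Complex.im ⁻¹' range ((↑) : ℤ → ℝ)) := by
    ext x; exact Lam_iff
  rw [this]
  exact (h1.preimage Complex.continuous_re).inter (h1.preimage Complex.continuous_im)

lemma Lam_compl_nhds {x : ℂ} (hx : x ∉ Lam) : ∀ᶠ y in 𝓝 x, y ∉ Lam :=
  Lam_closed.isOpen_compl.mem_nhds hx

lemma Lam_zero : (0 : ℂ) ∈ Lam := ⟨0, 0, by simp⟩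

lemma Lam_one : (1 : ℂ) ∈ Lam := ⟨1, 0, by simp⟩

lemma Lam_I : Complex.I ∈ Lam := ⟨0, 1, by simp⟩

lemma Lam_add {x y : ℂ} (hx : x ∈ Lam) (hy : y ∈ Lam) : x + y ∈ Lam := by
  obtain ⟨m, n, rfl⟩ := hx
  obtain ⟨m', n', rfl⟩ := hy
  exact ⟨m + m', n + n', by push_cast; ring⟩

lemma Lam_neg {x : ℂ} (hx : x ∈ Lam) : -x ∈ Lam := by
  obtain ⟨m, n, rfl⟩ := hx
  exact ⟨-m, -n, by push_cast; ring⟩

lemma Lam_add_iff {x l : ℂ} (hl : l ∈ Lam) : x + l ∈ Lam ↔ x ∈ Lam :=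
  ⟨fun h => by simpa using Lam_add h (Lam_neg hl), fun h => Lam_add h hl⟩

/-- the only lattice point in the open unit disc is zero -/
lemma Lam_small {x : ℂ} (hx : x ∈ Lam) (h : ‖x‖ < 1) : x = 0 := by
  obtain ⟨m, n, rfl⟩ := hx
  have h1 := (Complex.abs_re_le_norm ((m : ℂ) + n * Complex.I)).trans_lt h
  have h2 := (Complex.abs_im_le_norm ((m : ℂ) + n * Complex.I)).trans_lt h
  simp at h1 h2
  have h3 : |m| < 1 := by exact_mod_cast h1
  have h4 : |n| < 1 := by exact_mod_cast h2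
  rw [Int.abs_lt_one_iff] at h3 h4
  simp [h3, h4]

/-- the derivative `2 ∂ f` -/
noncomputable def DD (f : ℂ → ℝ) (x : ℂ) : ℂ :=
  (fderiv ℝ f x 1 : ℂ) - Complex.I * (fderiv ℝ f x Complex.I : ℂ)

lemma DD_congr {f g : ℂ → ℝ} {x : ℂ} (h : f =ᶠ[𝓝 x] g) : DD f x = DD g x := by
  unfold DD
  rw [h.fderiv_eq]

lemma DD_add {f g : ℂ → ℝ} {x : ℂ} (hf : DifferentiableAt ℝ f x) (hg : DifferentiableAt ℝ g x) :
    DD (fun x => f x + g x) x = DD f x + DD g x := by
  unfold DD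
  rw [fderiv_fun_add hf hg]
  simp only [add_apply]
  push_cast
  ring

lemma DD_sq (c : ℝ) (x : ℂ) : DD (fun x => c / 4 * ‖x‖ ^ 2) x = (c / 2 : ℝ) * (starRingEnd ℂ) x := by
  have h : HasFDerivAt (fun x : ℂ => c / 4 * ‖x‖ ^ 2) ((c / 4) • (2 • innerSL ℝ x)) x :=
    ((hasStrictFDerivAt_norm_sq x).hasFDerivAt).const_mul (c / 4)
  unfold DD
  rw [h.fderiv]
  have e1 : (innerSL ℝ x) (1 : ℂ) = x.re := by
    rw [innerSL_apply_apply, Complex.inner]; simp
  have e2 : (innerSL ℝ x) (Complex.I : ℂ) = x.im := by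
    rw [innerSL_apply_apply, Complex.inner]; simp
  simp only [smul_apply, e1, e2]
  apply Complex.ext <;> simp <;> ring

lemma DD_log {x : ℂ} (hx : x ≠ 0) : DD (fun x => Real.log (‖x‖ ^ 2)) x = 2 / x := by
  have hn : ‖x‖ ^ 2 ≠ 0 := pow_ne_zero _ (norm_ne_zero_iff.mpr hx)
  have h : HasFDerivAt (fun x : ℂ => Real.log (‖x‖ ^ 2)) ((‖x‖ ^ 2)⁻¹ • (2 • innerSL ℝ x)) x :=
    ((hasStrictFDerivAt_norm_sq x).hasFDerivAt).log hn
  unfold DD
  rw [h.fderiv]
  have e1 : (innerSL ℝ x) (1 : ℂ) = x.re := by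
    rw [innerSL_apply_apply, Complex.inner]; simp
  have e2 : (innerSL ℝ x) (Complex.I : ℂ) = x.im := by
    rw [innerSL_apply_apply, Complex.inner]; simp
  have e3 : ((‖x‖ ^ 2)⁻¹ • (2 • innerSL ℝ x)) (1 : ℂ) = (‖x‖ ^ 2)⁻¹ * (2 * x.re) := by
    rw [← e1]; simp
  have e4 : ((‖x‖ ^ 2)⁻¹ • (2 • innerSL ℝ x)) Complex.I = (‖x‖ ^ 2)⁻¹ * (2 * x.im) := by
    rw [← e2]; simp
  rw [e3, e4, eq_div_iff hx]
  have e5 : (starRingEnd ℂ) x * x = ((‖x‖ ^ 2 : ℝ) : ℂ) := by
    rw [Complex.conj_mul']; push_cast; ring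
  have e6 : (x.re : ℂ) - Complex.I * x.im = (starRingEnd ℂ) x := by
    apply Complex.ext <;> simp
  have e7 : ((‖x‖ ^ 2 : ℝ) : ℂ) ≠ 0 := by exact_mod_cast hn
  have e8 : ((((‖x‖ ^ 2)⁻¹ * (2 * x.re) : ℝ) : ℂ) - Complex.I * (((‖x‖ ^ 2)⁻¹ * (2 * x.im) : ℝ) : ℂ)) =
      2 * (((‖x‖ ^ 2 : ℝ) : ℂ))⁻¹ * (starRingEnd ℂ) x := by
    rw [← e6]; push_cast; ring
  rw [e8, mul_assoc, e5, mul_assoc, inv_mul_cancel₀ e7, mul_one]

variable {G h : ℂ → ℝ} {c : ℝ}

/-- `G + c |x|² / 4` is harmonic outside the lattice -/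
lemma green_harm (hG : IsGreen G h c) {x : ℂ} (hx : x ∉ Lam) :
    HarmonicAt (fun x => G x + c / 4 * ‖x‖ ^ 2) x := by
  have hc : ∀ y, y ∉ Lam → ContDiffAt ℝ 2 G y := fun y hy =>
    (hG.smooth y hy).of_le (WithTop.coe_le_coe.2 (le_top : (2 : ℕ∞) ≤ ⊤))
  have hq : ∀ y : ℂ, ContDiffAt ℝ 2 (fun x : ℂ => ‖x‖ ^ 2) y := fun y => (contDiff_norm_sq ℝ).contDiffAt
  refine ⟨(hc x hx).add (contDiffAt_const.mul (hq x)), ?_⟩
  filter_upwards [Lam_compl_nhds hx] with y hy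
  have h0 : ∀ q : ℂ → ℝ, ContDiffAt ℝ 2 q y → Laplacian.laplacian q y = 4 →
      Laplacian.laplacian (fun x => G x + c / 4 * q x) y = 0 := by
    intro q hq' hq4
    have h1 : Laplacian.laplacian (G + (c / 4) • q) y = Laplacian.laplacian G y +
        Laplacian.laplacian ((c / 4) • q) y :=
      ContDiffAt.laplacian_add (hc y hy) (contDiffAt_const.mul hq')
    have h2 : Laplacian.laplacian ((c / 4) • q) y = (c / 4) • Laplacian.laplacian q y :=
      laplacian_smul (c / 4) hq'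
    have h3 : (fun x => G x + c / 4 * q x) = G + (c / 4) • q := rfl
    rw [h3, h1, h2, hq4, hG.lap y hy, smul_eq_mul]
    ring
  refine h0 (fun x : ℂ => ‖x‖ ^ 2) (hq y) ?_
  have := lap_sq 0 y
  simpa using this

/-- the holomorphic function `2 ∂ (G + c |x|² / 4)` -/
noncomputable def QQ (G : ℂ → ℝ) (c : ℝ) (x : ℂ) : ℂ := DD (fun x => G x + c / 4 * ‖x‖ ^ 2) x

lemma QQ_diff (hG : IsGreen G h c) {x : ℂ} (hx : x ∉ Lam) : DifferentiableAt ℂ (QQ G c) x :=
  HarmonicAt.differentiableAt_complex_partial (green_harm hG hx)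

lemma G_diff (hG : IsGreen G h c) {x : ℂ} (hx : x ∉ Lam) : DifferentiableAt ℝ G x :=
  (hG.smooth x hx).differentiableAt (by simp)

lemma QQ_eq (hG : IsGreen G h c) {x : ℂ} (hx : x ∉ Lam) :
    QQ G c x = DD G x + (c / 2 : ℝ) * (starRingEnd ℂ) x := by
  unfold QQ
  rw [DD_add (G_diff hG hx) ((((contDiff_norm_sq ℝ (n := 1)).contDiffAt (x := x)).differentiableAt
    (by simp)).const_mul _), DD_sq]

lemma DD_per (hG : IsGreen G h c) {l : ℂ} (hl : l ∈ Lam) (x : ℂ) : DD G (x + l) = DD G x := by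
  have h1 : (fun y => G (y + l)) = G := funext fun y => hG.per y l hl
  unfold DD
  have h2 : fderiv ℝ G (x + l) = fderiv ℝ G x := by
    have := fderiv_comp_add_right (𝕜 := ℝ) (f := G) (x := x) l
    rw [h1] at this
    exact this.symm
  rw [h2]

lemma QQ_per (hG : IsGreen G h c) {l : ℂ} (hl : l ∈ Lam) {x : ℂ} (hx : x ∉ Lam) :
    QQ G c (x + l) = QQ G c x + (c / 2 : ℝ) * (starRingEnd ℂ) l := by
  rw [QQ_eq hG hx, QQ_eq hG (fun h => hx ((Lam_add_iff hl).mp h)), DD_per hG hl]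
  rw [map_add]
  ring

lemma QQ_lim (hG : IsGreen G h c) : Tendsto (fun x => x * QQ G c x) (𝓝[≠] 0) (𝓝 2) := by
  -- the smooth part
  have hk : ContDiffAt ℝ ∞ (fun x : ℂ => h x + c / 4 * ‖x‖ ^ 2) 0 :=
    (hG.smooth_h 0 (by simp)).add (contDiffAt_const.mul ((contDiff_norm_sq ℝ).contDiffAt))
  have hkc : ContinuousAt (DD (fun x : ℂ => h x + c / 4 * ‖x‖ ^ 2)) 0 := by
    have h1 : ContDiffAt ℝ 0 (fderiv ℝ (fun x : ℂ => h x + c / 4 * ‖x‖ ^ 2)) 0 :=
      hk.fderiv_right (by simp)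
    have h2 := h1.continuousAt
    unfold DD
    refine ContinuousAt.sub ?_ (continuousAt_const.mul ?_)
    · exact Complex.continuous_ofReal.continuousAt.comp (h2.clm_apply continuousAt_const)
    · exact Complex.continuous_ofReal.continuousAt.comp (h2.clm_apply continuousAt_const)
  have h1 : Tendsto (fun x : ℂ => 2 + x * DD (fun x : ℂ => h x + c / 4 * ‖x‖ ^ 2) x) (𝓝[≠] 0)
      (𝓝 (2 + 0 * DD (fun x : ℂ => h x + c / 4 * ‖x‖ ^ 2) 0)) := by
    have h3 : ContinuousAt (fun x : ℂ => 2 + x * DD (fun x : ℂ => h x + c / 4 * ‖x‖ ^ 2) x) 0 :=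
      continuousAt_const.add (continuousAt_id.mul hkc)
    exact h3.tendsto.mono_left nhdsWithin_le_nhds
  rw [zero_mul, add_zero] at h1
  refine h1.congr' ?_
  have hb : Metric.ball (0 : ℂ) (1 / 2) ∈ 𝓝 (0 : ℂ) := Metric.ball_mem_nhds _ (by norm_num)
  filter_upwards [self_mem_nhdsWithin, nhdsWithin_le_nhds hb] with x hx0 hxb
  have hx0' : x ≠ 0 := hx0
  have hxb' : ‖x‖ < 1 / 2 := by simpa using hxb
  have e1 : (fun x => G x + c / 4 * ‖x‖ ^ 2) =ᶠ[𝓝 x]
      fun x => Real.log (‖x‖ ^ 2) + (h x + c / 4 * ‖x‖ ^ 2) := by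
    have h2 : ∀ᶠ y : ℂ in 𝓝 x, y ≠ 0 := isOpen_ne.mem_nhds hx0'
    have h3 : ∀ᶠ y : ℂ in 𝓝 x, ‖y‖ < 1 / 2 :=
      (isOpen_lt continuous_norm continuous_const).mem_nhds hxb'
    filter_upwards [h2, h3] with y hy1 hy2
    rw [hG.eq y hy2 hy1]
    ring
  have d1 : DifferentiableAt ℝ (fun x : ℂ => Real.log (‖x‖ ^ 2)) x :=
    (((hasStrictFDerivAt_norm_sq x).hasFDerivAt).log
      (pow_ne_zero _ (norm_ne_zero_iff.mpr hx0'))).differentiableAt
  have d2 : DifferentiableAt ℝ (fun x : ℂ => h x + c / 4 * ‖x‖ ^ 2) x := by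
    refine ((hG.smooth_h x hxb').differentiableAt (by simp)).add ?_
    exact (((contDiff_norm_sq ℝ (n := 1)).contDiffAt (x := x)).differentiableAt (by simp)).const_mul _
  unfold QQ
  rw [DD_congr e1, DD_add d1 d2, DD_log hx0', mul_add, mul_div_cancel₀ _ hx0']

theorem t_Res (hSG : StG) : StRes := by
  obtain ⟨G, h, c, hG⟩ := hSG
  intro g hg hper hlim
  set Q : ℂ → ℂ := fun x => 2 * g x + QQ G c x with hQ
  have hQd : ∀ x, x ∉ Lam → DifferentiableAt ℂ Q x := fun x hx =>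
    ((hg x hx).const_mul 2).add (QQ_diff hG hx)
  have hQp : ∀ x l, l ∈ Lam → x ∉ Lam → Q (x + l) = Q x + (c / 2 : ℝ) * (starRingEnd ℂ) l := by
    intro x l hl hx
    simp only [hQ]
    rw [hper x l hl, QQ_per hG hl hx]
    ring
  have hQl : Tendsto (fun x => x * Q x) (𝓝[≠] 0) (𝓝 0) := by
    have h1 := (hlim.const_mul 2).add (QQ_lim hG)
    have e : (2 : ℂ) * -1 + 2 = 0 := by norm_num
    rw [e] at h1
    refine h1.congr fun x => ?_
    simp only [hQ]
    ring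
  -- removable singularity at zero
  set L : ℂ := limUnder (𝓝[≠] (0 : ℂ)) Q with hL
  have hball : Metric.ball (0 : ℂ) 1 ∈ 𝓝 (0 : ℂ) := Metric.ball_mem_nhds _ (by norm_num)
  have hnl : ∀ x ∈ Metric.ball (0 : ℂ) 1 \ {0}, x ∉ Lam := fun x hx hxl =>
    hx.2 (Lam_small hxl (by simpa using hx.1))
  have hd0 : DifferentiableOn ℂ Q (Metric.ball (0 : ℂ) 1 \ {0}) := fun x hx =>
    (hQd x (hnl x hx)).differentiableWithinAt
  have hlit : (fun z => Q z - Q 0) =o[𝓝[≠] 0] fun z => (z - 0)⁻¹ := by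
    rw [Asymptotics.isLittleO_iff_tendsto']
    · have h1 : Tendsto (fun x : ℂ => x * Q x - x * Q 0) (𝓝[≠] 0) (𝓝 (0 - 0 * Q 0)) := by
        refine hQl.sub ?_
        have : ContinuousAt (fun x : ℂ => x * Q 0) 0 := continuousAt_id.mul continuousAt_const
        exact this.tendsto.mono_left nhdsWithin_le_nhds
      rw [zero_mul, sub_zero] at h1
      refine h1.congr fun x => ?_
      rw [sub_zero, div_inv_eq_mul]
      ring
    · filter_upwards [self_mem_nhdsWithin] with x hx h0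
      rw [sub_zero, inv_eq_zero] at h0
      exact absurd h0 hx
  have hrem := Complex.differentiableOn_update_limUnder_of_isLittleO hball hd0 hlit
  -- the extension
  open Classical in
  obtain ⟨Qt, hQt⟩ : ∃ Qt : ℂ → ℂ, Qt = fun x =>
    if x ∈ Lam then L + (c / 2 : ℝ) * (starRingEnd ℂ) x else Q x := ⟨_, rfl⟩
  have hQt1 : ∀ x, x ∈ Lam → Qt x = L + (c / 2 : ℝ) * (starRingEnd ℂ) x := fun x hx => by
    rw [hQt]; simp [hx]
  have hQt2 : ∀ x, x ∉ Lam → Qt x = Q x := fun x hx => by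
    rw [hQt]; simp [hx]
  have hQtp : ∀ x l, l ∈ Lam → Qt (x + l) = Qt x + (c / 2 : ℝ) * (starRingEnd ℂ) l := by
    intro x l hl
    by_cases hx : x ∈ Lam
    · rw [hQt1 _ hx, hQt1 _ (Lam_add hx hl), map_add]
      ring
    · rw [hQt2 _ hx, hQt2 _ (fun h => hx ((Lam_add_iff hl).mp h)), hQp x l hl hx]
  have hQt0 : DifferentiableAt ℂ Qt 0 := by
    have h1 : DifferentiableAt ℂ (Function.update Q 0 L) 0 := hrem.differentiableAt hball
    refine h1.congr_of_eventuallyEq ?_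
    filter_upwards [hball] with x hx
    by_cases hx0 : x = 0
    · subst hx0
      rw [hQt1 _ Lam_zero]
      simp
    · rw [hQt2 _ (hnl x ⟨hx, hx0⟩), Function.update_of_ne hx0]
  have hent : Differentiable ℂ Qt := by
    intro x
    by_cases hx : x ∈ Lam
    · have h1 : DifferentiableAt ℂ (fun y => Qt (y - x) + (c / 2 : ℝ) * (starRingEnd ℂ) x) x := by
        refine DifferentiableAt.add_const _ ?_
        have h2 : DifferentiableAt ℂ Qt (x - x) := by rw [sub_self]; exact hQt0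
        exact DifferentiableAt.comp (f := fun y => y - x) (g := Qt) x h2
          (differentiableAt_id.sub_const x)
      refine h1.congr_of_eventuallyEq (Eventually.of_forall fun y => ?_)
      have := hQtp (y - x) x hx
      rw [sub_add_cancel] at this
      exact this
    · refine (hQd x hx).congr_of_eventuallyEq ?_
      filter_upwards [Lam_compl_nhds hx] with y hy
      exact hQt2 y hy
  -- the derivative is bounded, hence constant
  have hdp : ∀ x l, l ∈ Lam → deriv Qt (x + l) = deriv Qt x := by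
    intro x l hl
    have h1 : (fun y => Qt (y + l)) = fun y => Qt y + (c / 2 : ℝ) * (starRingEnd ℂ) l :=
      funext fun y => hQtp y l hl
    have h2 := deriv_comp_add_const (f := Qt) (x := x) l
    rw [h1] at h2
    rw [← h2]
    exact (deriv_add_const _)
  have hdd : Differentiable ℂ (deriv Qt) := by
    have := hent.analyticAt
    intro x
    exact (this x).deriv.differentiableAt
  have hbd : Bornology.IsBounded (range (deriv Qt)) := by
    have hK : IsCompact (Metric.closedBall (0 : ℂ) 2) := isCompact_closedBall _ _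
    refine ((hK.image hdd.continuous).isBounded).subset ?_
    rintro _ ⟨x, rfl⟩
    refine ⟨x - ((⌊x.re⌋ : ℂ) + (⌊x.im⌋ : ℂ) * Complex.I), ?_, ?_⟩
    · rw [Metric.mem_closedBall, dist_zero_right]
      refine (Complex.norm_le_abs_re_add_abs_im _).trans ?_
      have h1 : (x - ((⌊x.re⌋ : ℂ) + (⌊x.im⌋ : ℂ) * Complex.I)).re = Int.fract x.re := by
        simp
      have h2 : (x - ((⌊x.re⌋ : ℂ) + (⌊x.im⌋ : ℂ) * Complex.I)).im = Int.fract x.im := by
        simp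
      rw [h1, h2, abs_of_nonneg (Int.fract_nonneg _), abs_of_nonneg (Int.fract_nonneg _)]
      have := Int.fract_lt_one x.re
      have := Int.fract_lt_one x.im
      linarith
    · have hm : (-((⌊x.re⌋ : ℂ) + (⌊x.im⌋ : ℂ) * Complex.I)) ∈ Lam := Lam_neg ⟨⌊x.re⌋, ⌊x.im⌋, rfl⟩
      have := hdp x _ hm
      rw [← sub_eq_add_neg] at this
      exact this
  have hconst : ∀ x, deriv Qt x = deriv Qt 0 := fun x => hdd.apply_eq_apply_of_bounded hbd x 0
  set a := deriv Qt 0 with ha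
  have hlin : ∀ x, Qt x - a * x = Qt 0 := by
    intro x
    have h1 : ∀ y, HasDerivAt (fun x => Qt x - a * x) (deriv Qt y - a * 1) y := fun y =>
      ((hent y).hasDerivAt).sub ((hasDerivAt_id y).const_mul a)
    have h2 := is_const_of_deriv_eq_zero (f := fun x => Qt x - a * x)
      (fun y => (h1 y).differentiableAt) (fun y => by rw [(h1 y).deriv, hconst y]; ring) x 0
    simpa using h2
  have k1 := hlin 1
  have k2 := hlin Complex.I
  have p1 := hQtp 0 1 Lam_one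
  have p2 := hQtp 0 Complex.I Lam_I
  rw [zero_add] at p1 p2
  rw [p1] at k1
  rw [p2] at k2
  simp only [map_one, Complex.conj_I, mul_one] at k1 k2
  have e1 : a = (c / 2 : ℝ) := by linear_combination -k1
  have e2 : a * Complex.I = -((c / 2 : ℝ) * Complex.I) := by linear_combination -k2
  rw [e1] at e2
  have e3 := congrArg Complex.im e2
  simp at e3
  have := hG.pos
  linarith

end Run7.h772.SP
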